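import Mathlib

/-!
The Comfort-Frolik preorder on ultrafilters over the natural numbers: it is contained in the Comfort
preorder, it is different from the Comfort preorder, and it does not contain the Rudin-Frolik
preorder.
-/

open Set Filter Topology Function

namespace Pool.Agent.Results.MP_254ca6_gt.ComfortFrolik

universe w

/-- `u`-compact spaces: every sequence has a `u`-limit. -/
def UCompact (u : Ultrafilter ℕ) (X : Type*) [TopologicalSpace X] : Prop :=
  ∀ f : ℕ → X, ∃ x, Tendsto f u (𝓝 x)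

/-- Discretely `u`-compact spaces: every injective sequence with discrete range has a
`u`-limit. -/
def DiscUCompact (u : Ultrafilter ℕ) (X : Type*) [TopologicalSpace X] : Prop :=
  ∀ f : ℕ → X, Injective f → DiscreteTopology (range f) → ∃ x, Tendsto f u (𝓝 x)

/-- The Comfort preorder: every `v`-compact Tychonoff space is `u`-compact. -/
def LeC (u v : Ultrafilter ℕ) : Prop :=
  ∀ (X : Type w) [TopologicalSpace X] [T35Space X], UCompact v X → UCompact u X

/-- The Comfort-Frolik preorder: every discretely `v`-compact Tychonoff space is discretely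
`u`-compact. -/
def LeCF (u v : Ultrafilter ℕ) : Prop :=
  ∀ (X : Type w) [TopologicalSpace X] [T35Space X], DiscUCompact v X → DiscUCompact u X

/-- The Rudin-Frolik preorder: `v` is the `u`-limit of an injective sequence of ultrafilters with
discrete range. -/
def LeRF (u v : Ultrafilter ℕ) : Prop :=
  ∃ f : ℕ → Ultrafilter ℕ, Injective f ∧ DiscreteTopology (range f) ∧ Tendsto f u (𝓝 v)

/-! ### Maps with a fixed ultrafilter -/

theorem no_flip (u : Ultrafilter ℕ) (f : ℕ → ℕ) (hf : u.map f = u) (A : Set ℕ) (hA : A ∈ u)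
    (d : ℕ → Prop) (hd : ∀ n ∈ A, ¬ (d (f n) ↔ d n)) : False := by
  have hmap : ∀ s : Set ℕ, f ⁻¹' s ∈ u ↔ s ∈ u := by
    intro s
    rw [← Ultrafilter.mem_map, hf]
  by_cases h : {n | d n} ∈ u
  · have h1 := (hmap _).2 h
    obtain ⟨n, hn⟩ := u.nonempty_of_mem (inter_mem hA (inter_mem h h1))
    exact hd n hn.1 ⟨fun _ => hn.2.1, fun _ => hn.2.2⟩
  · have h' : {n | d n}ᶜ ∈ u := Ultrafilter.compl_mem_iff_notMem.2 h
    have h1 := (hmap _).2 h'
    obtain ⟨n, hn⟩ := u.nonempty_of_mem (inter_mem hA (inter_mem h' h1))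
    exact hd n hn.1 ⟨fun h => (hn.2.2 h).elim, fun h => (hn.2.1 h).elim⟩

open Classical in
/-- The parity of the length of the descending part of the orbit. -/
noncomputable def dcol (f : ℕ → ℕ) (n : ℕ) : Prop :=
  if _h : f n < n then ¬ dcol f (f n) else True
termination_by n

theorem dcol_spec (f : ℕ → ℕ) {n : ℕ} (h : f n < n) : ¬ (dcol f (f n) ↔ dcol f n) := by
  rw [dcol.eq_def f n, dif_pos h]
  tauto

section Up

variable (g : ℕ → ℕ) (hg : ∀ n, n < g n)

/-- Two numbers are equivalent if their orbits meet. -/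
def orbSetoid : Setoid ℕ where
  r n m := ∃ k l, g^[k] n = g^[l] m
  iseqv := by
    refine ⟨fun n => ⟨0, 0, rfl⟩, fun ⟨k, l, h⟩ => ⟨l, k, h.symm⟩, ?_⟩
    rintro a b c ⟨k, l, h⟩ ⟨k', l', h'⟩
    refine ⟨k' + k, l + l', ?_⟩
    rw [iterate_add_apply, h, ← iterate_add_apply, add_comm k' l, iterate_add_apply, h',
      ← iterate_add_apply]

include hg in
theorem iterate_strictMono (a : ℕ) : StrictMono fun k => g^[k] a := by
  refine strictMono_nat_of_lt_succ fun k => ?_
  show g^[k] a < g^[k + 1] a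
  rw [iterate_succ_apply']
  exact hg _

include hg in
theorem exists_parity : ∃ d : ℕ → Prop, ∀ n, ¬ (d (g n) ↔ d n) := by
  classical
  let S := orbSetoid g
  have hex : ∀ n, ∃ p : ℕ × ℕ, g^[p.1] n = g^[p.2] (Quotient.out (Quotient.mk S n)) := by
    intro n
    obtain ⟨k, l, h⟩ := Setoid.symm (Quotient.mk_out (s := S) n)
    exact ⟨(k, l), h⟩
  choose p hp using hex
  refine ⟨fun n => ((p n).1 + (p n).2) % 2 = 0, fun n => ?_⟩
  have hrep : Quotient.mk S (g n) = Quotient.mk S n := by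
    apply Quotient.sound
    exact ⟨0, 1, rfl⟩
  have h1 := hp n
  have h2 := hp (g n)
  rw [hrep] at h2
  set ρ := Quotient.out (Quotient.mk S n)
  have hinj := (iterate_strictMono g hg ρ).injective
  have h2' : g^[(p (g n)).1 + 1] n = g^[(p (g n)).2] ρ := h2
  have key : (p n).2 + ((p (g n)).1 + 1) = (p (g n)).2 + (p n).1 := by
    apply hinj
    show g^[(p n).2 + ((p (g n)).1 + 1)] ρ = g^[(p (g n)).2 + (p n).1] ρ
    calc g^[(p n).2 + ((p (g n)).1 + 1)] ρ = g^[(p (g n)).1 + 1] (g^[(p n).2] ρ) := by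
          rw [add_comm, iterate_add_apply]
      _ = g^[(p (g n)).1 + 1] (g^[(p n).1] n) := by rw [h1]
      _ = g^[(p n).1] (g^[(p (g n)).1 + 1] n) := by
          rw [← iterate_add_apply, ← iterate_add_apply, add_comm]
      _ = g^[(p n).1] (g^[(p (g n)).2] ρ) := by rw [h2']
      _ = g^[(p (g n)).2 + (p n).1] ρ := by rw [← iterate_add_apply, add_comm]
  show ¬ ((((p (g n)).1 + (p (g n)).2) % 2 = 0) ↔ (((p n).1 + (p n).2) % 2 = 0))
  omega

end Up

/-- A map that fixes an ultrafilter is the identity on a set of the ultrafilter. -/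
theorem map_eq_self (u : Ultrafilter ℕ) (f : ℕ → ℕ) (hf : u.map f = u) : {n | f n = n} ∈ u := by
  classical
  by_contra hcon
  have h1 : {n | f n = n}ᶜ ∈ u := Ultrafilter.compl_mem_iff_notMem.2 hcon
  have h2 : {n | f n = n}ᶜ = {n | f n < n} ∪ {n | n < f n} := by
    ext n
    show ¬ (f n = n) ↔ (f n < n ∨ n < f n)
    omega
  rw [h2, Ultrafilter.union_mem_iff] at h1
  rcases h1 with h | h
  · exact no_flip u f hf _ h (dcol f) fun n hn => dcol_spec f hn
  · obtain ⟨d, hd⟩ := exists_parity (fun n => if n < f n then f n else n + 1) (by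
      intro n
      split_ifs with h
      · exact h
      · exact Nat.lt_succ_self n)
    refine no_flip u f hf _ h d fun n hn => ?_
    have := hd n
    rwa [if_pos (show n < f n from hn)] at this

/-! ### Discrete sequences -/

theorem discrete_range_iff {Z : Type*} [TopologicalSpace Z] {f : ℕ → Z} :
    DiscreteTopology (range f) ↔ ∀ n, ∃ U : Set Z, IsOpen U ∧ f n ∈ U ∧ ∀ m, f m ∈ U → f m = f n := by
  constructor
  · intro hd n
    have hopen : IsOpen ({⟨f n, mem_range_self n⟩} : Set (range f)) := isOpen_discrete _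
    obtain ⟨U, hU, hUn⟩ := isOpen_induced_iff.1 hopen
    refine ⟨U, hU, ?_, fun m hm => ?_⟩
    · have : (⟨f n, mem_range_self n⟩ : range f) ∈ Subtype.val ⁻¹' U := by
        rw [hUn]
        exact mem_singleton _
      exact this
    · have h2 : (⟨f m, mem_range_self m⟩ : range f) ∈ Subtype.val ⁻¹' U := hm
      rw [hUn, mem_singleton_iff] at h2
      exact congrArg Subtype.val h2
  · intro h
    rw [discreteTopology_iff_isOpen_singleton]
    rintro ⟨_, n, rfl⟩
    obtain ⟨U, hU, hn, hm⟩ := h n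
    refine isOpen_induced_iff.2 ⟨U, hU, ?_⟩
    ext ⟨_, m, rfl⟩
    constructor
    · intro hmU
      exact Subtype.ext (hm m hmU)
    · intro hmn
      have : f m = f n := congrArg Subtype.val (mem_singleton_iff.1 hmn)
      show f m ∈ U
      rw [this]
      exact hn

theorem exists_disjoint {f : ℕ → Ultrafilter ℕ} (hinj : Injective f)
    (hd : DiscreteTopology (range f)) : ∃ A : ℕ → Set ℕ, (∀ n, A n ∈ f n) ∧
      ∀ m n, m < n → Disjoint (A m) (A n) := by
  have h1 : ∀ n, ∃ s : Set ℕ, s ∈ f n ∧ ∀ m, m ≠ n → s ∉ f m := by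
    intro n
    obtain ⟨U, hU, hfn, hUn⟩ := discrete_range_iff.1 hd n
    obtain ⟨_, ⟨s, rfl⟩, hs, hsU⟩ :=
      (ultrafilterBasis_is_basis (α := ℕ)).exists_subset_of_mem_open hfn hU
    exact ⟨s, hs, fun m hmn hsm => hmn (hinj (hUn m (hsU hsm)))⟩
  choose s hs hs' using h1
  refine ⟨fun n => s n \ ⋃ i ∈ Iio n, s i, fun n => ?_, fun m n hmn => ?_⟩
  · have h2 : (⋃ i ∈ Iio n, s i) ∉ f n := by
      rw [Ultrafilter.finite_biUnion_mem_iff (finite_Iio n)]
      rintro ⟨i, hi, hin⟩
      exact hs' i n (ne_of_gt hi) hin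
    exact inter_mem (hs n) (Ultrafilter.compl_mem_iff_notMem.2 h2)
  · rw [Set.disjoint_left]
    intro x hx hx'
    exact hx'.2 (mem_iUnion₂.2 ⟨m, hmn, hx.1⟩)

/-- The Rudin-Frolik preorder is contained in the Rudin-Keisler preorder. -/
theorem exists_map_of_leRF {u v : Ultrafilter ℕ} (h : LeRF v u) : ∃ k : ℕ → ℕ, u.map k = v := by
  classical
  obtain ⟨g, hinj, hd, hlim⟩ := h
  obtain ⟨A, hA, hdisj⟩ := exists_disjoint hinj hd
  let k : ℕ → ℕ := fun m => if h : ∃ n, m ∈ A n then Nat.find h else 0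
  have hk : ∀ n, ∀ m ∈ A n, k m = n := by
    intro n m hm
    have hex : ∃ n, m ∈ A n := ⟨n, hm⟩
    show (if h : ∃ n, m ∈ A n then Nat.find h else 0) = n
    rw [dif_pos hex]
    have h1 := Nat.find_spec hex
    by_contra hne
    rcases lt_or_gt_of_ne hne with h2 | h2
    · exact Set.disjoint_left.1 (hdisj _ _ h2) h1 hm
    · exact Set.disjoint_left.1 (hdisj _ _ h2) hm h1
  refine ⟨k, ?_⟩
  have key : ∀ B ∈ v, B ∈ u.map k := by
    intro B hB
    by_contra hcon
    rw [Ultrafilter.mem_map] at hcon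
    have h1 : (k ⁻¹' B)ᶜ ∈ u := Ultrafilter.compl_mem_iff_notMem.2 hcon
    have h2 : ∀ᶠ n in (v : Filter ℕ), g n ∈ {x : Ultrafilter ℕ | (k ⁻¹' B)ᶜ ∈ x} :=
      hlim ((ultrafilter_isOpen_basic _).mem_nhds h1)
    obtain ⟨n, hn, hnB⟩ := v.nonempty_of_mem (inter_mem h2 hB)
    have h3 : A n ∩ (k ⁻¹' B)ᶜ ∈ g n := inter_mem (hA n) hn
    obtain ⟨m, hm, hm'⟩ := (g n).nonempty_of_mem h3
    apply hm'
    show k m ∈ B
    rw [hk n m hm]
    exact hnB
  exact Ultrafilter.eq_of_le key

/-! ### The product of an ultrafilter with itself -/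

/-- The product of `u` with itself, transported to the natural numbers by a pairing. -/
noncomputable def sq (u : Ultrafilter ℕ) : Ultrafilter ℕ := u.bind fun n => u.map (Nat.pair n)

theorem mem_sq {u : Ultrafilter ℕ} {s : Set ℕ} :
    s ∈ sq u ↔ {n | {m | Nat.pair n m ∈ s} ∈ u} ∈ u := Iff.rfl

theorem tendsto_bind (u : Ultrafilter ℕ) (f : ℕ → Ultrafilter ℕ) :
    Tendsto f u (𝓝 (u.bind f)) := by
  rw [(ultrafilterBasis_is_basis (α := ℕ)).nhds_hasBasis.tendsto_right_iff]
  rintro _ ⟨⟨s, rfl⟩, hs⟩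
  exact hs

theorem leRF_sq (u : Ultrafilter ℕ) : LeRF u (sq u) := by
  have hC : ∀ n, range (Nat.pair n) ∈ u.map (Nat.pair n) := by
    intro n
    rw [Ultrafilter.mem_map, preimage_range]
    exact univ_mem
  have hC' : ∀ n m, range (Nat.pair n) ∈ u.map (Nat.pair m) → n = m := by
    intro n m h
    rw [Ultrafilter.mem_map] at h
    obtain ⟨k, l, hk⟩ := u.nonempty_of_mem h
    exact (Nat.pair_eq_pair.1 hk).1
  refine ⟨fun n => u.map (Nat.pair n), ?_, ?_, tendsto_bind u _⟩
  · intro n m hnm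
    apply hC' n m
    have hnm' : u.map (Nat.pair n) = u.map (Nat.pair m) := hnm
    rw [← hnm']
    exact hC n
  · rw [discrete_range_iff]
    intro n
    refine ⟨{x | range (Nat.pair n) ∈ x}, ultrafilter_isOpen_basic _, hC n, fun m hm => ?_⟩
    rw [hC' n m hm]

theorem map_fst_sq (u : Ultrafilter ℕ) : (sq u).map (fun k => k.unpair.1) = u := by
  apply Ultrafilter.eq_of_le
  intro s hs
  show _ ∈ sq u
  rw [mem_sq]
  refine mem_of_superset hs fun n hn => ?_
  refine mem_of_superset univ_mem fun m _ => ?_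
  show (Nat.pair n m).unpair.1 ∈ s
  rw [Nat.unpair_pair]
  exact hn

theorem map_snd_sq (u : Ultrafilter ℕ) : (sq u).map (fun k => k.unpair.2) = u := by
  apply Ultrafilter.eq_of_le
  intro s hs
  show _ ∈ sq u
  rw [mem_sq]
  refine mem_of_superset univ_mem fun n _ => ?_
  refine mem_of_superset hs fun m hm => ?_
  show (Nat.pair n m).unpair.2 ∈ s
  rw [Nat.unpair_pair]
  exact hm

theorem leC_sq (u : Ultrafilter ℕ) : LeC.{w} u (sq u) := by
  intro X _ _ hX f
  obtain ⟨x, hx⟩ := hX (f ∘ fun k => k.unpair.1)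
  refine ⟨x, ?_⟩
  have h1 : (u : Filter ℕ) = Filter.map (fun k : ℕ => k.unpair.1) (sq u : Filter ℕ) := by
    rw [← Ultrafilter.coe_map, map_fst_sq]
  rw [h1, tendsto_map'_iff]
  exact hx

theorem not_leRF_sq {u : Ultrafilter ℕ} (hu : ∀ n, {n} ∉ u) : ¬ LeRF (sq u) u := by
  intro h
  obtain ⟨k, hk⟩ := exists_map_of_leRF h
  have h1 : u.map (fun n => (k n).unpair.1) = u := by
    have : u.map (fun n => (k n).unpair.1) = (u.map k).map (fun m => m.unpair.1) := by
      rw [Ultrafilter.map_map]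
      rfl
    rw [this, hk, map_fst_sq]
  have h2 : u.map (fun n => (k n).unpair.2) = u := by
    have : u.map (fun n => (k n).unpair.2) = (u.map k).map (fun m => m.unpair.2) := by
      rw [Ultrafilter.map_map]
      rfl
    rw [this, hk, map_snd_sq]
  have h3 := inter_mem (map_eq_self u _ h1) (map_eq_self u _ h2)
  have h4 : range (fun n => Nat.pair n n) ∈ sq u := by
    rw [← hk, Ultrafilter.mem_map]
    refine mem_of_superset h3 ?_
    rintro n ⟨ha, hb⟩
    have ha' : (k n).unpair.1 = n := ha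
    have hb' : (k n).unpair.2 = n := hb
    refine ⟨n, ?_⟩
    show Nat.pair n n = k n
    rw [← Nat.pair_unpair (k n), ha', hb']
  rw [mem_sq] at h4
  obtain ⟨n, hn⟩ := u.nonempty_of_mem h4
  apply hu n
  refine mem_of_superset hn ?_
  rintro m ⟨l, hl⟩
  have := Nat.pair_eq_pair.1 hl
  exact this.2.symm.trans this.1

/-! ### The counterexample space -/

/-- The principal ultrafilters together with the ultrafilters above `v` in the Rudin-Frolik
preorder. -/
def Y (v : Ultrafilter ℕ) : Set (Ultrafilter ℕ) := {x | (∃ n : ℕ, x = pure n) ∨ LeRF v x}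

theorem discUCompact_Y (v : Ultrafilter ℕ) : DiscUCompact v (Y v) := by
  intro f hf hd
  let g : ℕ → Ultrafilter ℕ := fun n => f n
  have hg : Injective g := Subtype.val_injective.comp hf
  have hlim := tendsto_bind v g
  have hgd : DiscreteTopology (range g) := by
    rw [discrete_range_iff] at hd ⊢
    intro n
    obtain ⟨U, hU, hn, hm⟩ := hd n
    obtain ⟨V, hV, rfl⟩ := isOpen_induced_iff.1 hU
    exact ⟨V, hV, hn, fun m hmV => congrArg Subtype.val (hm m hmV)⟩
  refine ⟨⟨v.bind g, Or.inr ⟨g, hg, hgd, hlim⟩⟩, ?_⟩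
  rw [tendsto_subtype_rng]
  exact hlim

theorem leRF_of_discUCompact_Y {u v : Ultrafilter ℕ} (hu : ∀ n, {n} ∉ u)
    (h : DiscUCompact u (Y v)) : LeRF v u := by
  obtain ⟨x, hx⟩ := h (fun n => ⟨pure n, Or.inl ⟨n, rfl⟩⟩) (by
    intro a b hab
    exact Ultrafilter.pure_injective (congrArg Subtype.val hab)) (by
    rw [discrete_range_iff]
    intro n
    have key : (pure n : Ultrafilter ℕ) ∈ {x : Ultrafilter ℕ | ({n} : Set ℕ) ∈ x} :=
      Ultrafilter.mem_pure.2 (mem_singleton n)
    refine ⟨Subtype.val ⁻¹' {x : Ultrafilter ℕ | ({n} : Set ℕ) ∈ x},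
      (ultrafilter_isOpen_basic _).preimage continuous_subtype_val, key, fun m hm => ?_⟩
    have : m = n := Ultrafilter.mem_pure.1 hm
    rw [this])
  rw [tendsto_subtype_rng] at hx
  have h1 : Tendsto (pure : ℕ → Ultrafilter ℕ) u (𝓝 u) := by
    have := tendsto_bind u pure
    rwa [show u.bind pure = u from Ultrafilter.eq_of_le fun s hs => hs] at this
  have h2 : (x : Ultrafilter ℕ) = u := tendsto_nhds_unique hx h1
  rcases x.2 with ⟨n, hn⟩ | h3
  · exfalso
    apply hu n
    rw [← h2, hn]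
    exact mem_pure.2 rfl
  · rwa [h2] at h3

theorem DiscUCompact.homeomorph {u : Ultrafilter ℕ} {X Z : Type*} [TopologicalSpace X]
    [TopologicalSpace Z] (e : X ≃ₜ Z) (h : DiscUCompact u X) : DiscUCompact u Z := by
  intro f hf hd
  obtain ⟨x, hx⟩ := h (e.symm ∘ f) (e.symm.injective.comp hf) (by
    rw [discrete_range_iff] at hd ⊢
    intro n
    obtain ⟨U, hU, hn, hm⟩ := hd n
    refine ⟨e ⁻¹' U, hU.preimage e.continuous, ?_, fun m hmU => ?_⟩
    · simpa using hn
    · have : f m ∈ U := by simpa using hmU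
      simp [hm m this])
  refine ⟨e x, ?_⟩
  have := (e.continuous.tendsto x).comp hx
  simpa [Function.comp_def] using this

/-- For nonprincipal `u`, the Comfort-Frolik preorder implies the reverse Rudin-Frolik preorder. -/
theorem leRF_of_leCF {u v : Ultrafilter ℕ} (hu : ∀ n, {n} ∉ u) (h : LeCF.{w} u v) : LeRF v u := by
  have hT : T35Space (ULift.{w} (Y v)) :=
    Topology.IsEmbedding.t35Space (Homeomorph.ulift (X := Y v)).isEmbedding
  have h1 : DiscUCompact u (ULift.{w} (Y v)) :=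
    h (ULift.{w} (Y v)) ((discUCompact_Y v).homeomorph Homeomorph.ulift.symm)
  exact leRF_of_discUCompact_Y hu (h1.homeomorph Homeomorph.ulift)

/-- The Comfort-Frolik preorder is contained in the Comfort preorder. -/
theorem leC_of_leCF {u v : Ultrafilter ℕ} (h : LeCF.{w} u v) : LeC.{w} u v := by
  intro X _ _ hX f
  have h1 : DiscUCompact v (X × Ultrafilter ℕ) := by
    intro g _ _
    obtain ⟨x, hx⟩ := hX (fun n => (g n).1)
    refine ⟨(x, v.bind fun n => (g n).2), ?_⟩
    rw [nhds_prod_eq]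
    exact hx.prodMk (tendsto_bind v _)
  obtain ⟨x, hx⟩ := h (X × Ultrafilter ℕ) h1 (fun n => (f n, pure n)) (by
    intro a b hab
    exact Ultrafilter.pure_injective (congrArg Prod.snd hab)) (by
    rw [discrete_range_iff]
    intro n
    have key : (pure n : Ultrafilter ℕ) ∈ {x : Ultrafilter ℕ | ({n} : Set ℕ) ∈ x} :=
      Ultrafilter.mem_pure.2 (mem_singleton n)
    refine ⟨Prod.snd ⁻¹' {x : Ultrafilter ℕ | ({n} : Set ℕ) ∈ x},
      (ultrafilter_isOpen_basic _).preimage continuous_snd, key, fun m hm => ?_⟩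
    have : m = n := Ultrafilter.mem_pure.1 hm
    rw [this])
  exact ⟨x.1, (continuous_fst.tendsto x).comp hx⟩

/-- The Comfort-Frolik preorder is contained in the Comfort preorder, and there are ultrafilters
`u`, `v` with `u` below `v` both in the Rudin-Frolik and in the Comfort preorder, but not in the
Comfort-Frolik preorder. -/
theorem result : (∀ u v : Ultrafilter ℕ, LeCF.{w} u v → LeC.{w} u v) ∧
    ∃ u v : Ultrafilter ℕ, LeRF u v ∧ LeC.{w} u v ∧ ¬ LeCF.{w} u v := by
  refine ⟨fun u v => leC_of_leCF, hyperfilter ℕ, sq (hyperfilter ℕ), leRF_sq _, leC_sq _, ?_⟩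
  have hu : ∀ n : ℕ, {n} ∉ hyperfilter ℕ := fun n =>
    notMem_hyperfilter_of_finite (finite_singleton n)
  exact fun h => not_leRF_sq hu (leRF_of_leCF hu h)

end Pool.Agent.Results.MP_254ca6_gt.ComfortFrolik
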